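import Pool.Agent.Helper29.UG.Props
import Pool.Agent.Helper10.RC.Homs

/-! Packet UG-TComp0G. -/

open scoped ENNReal NNReal InnerProductSpace ComplexOrder
open Filter Topology

attribute [-instance] CStarMatrix.instAlgebra CStarMatrix.instModule CStarMatrix.instSMul
  CStarMatrix.instMulAction CStarMatrix.instDistribMulAction

noncomputable section
namespace RC
universe u

theorem tComp0GP (h1 : TC2P.{u}) (h2 : ConvP.{u}) (h3 : MidCP.{u}) : TComp0GP.{u} := by
  intro D _ _ _ G β C hE hC hDom a b ha hb hab δ hδ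
  have hC1 : 0 < C + 1 := by linarith
  have hsa : ∀ y : D, IsSelfAdjoint (a - star y * b * y) := by
    intro y
    refine ha.isSelfAdjoint.sub ?_
    have := hb.isSelfAdjoint
    rw [IsSelfAdjoint, star_mul, star_mul, star_star, this.star_eq, mul_assoc]
  obtain ⟨f, ⟨y, rfl⟩, hy⟩ := h2 D G β
    {f | ∃ y : D, f = star (a - star y * b * y) * (a - star y * b * y)} (δ ^ 3 / (C + 1))
    ⟨_, 0, rfl⟩
    (by
      intro φ _
      obtain ⟨y, hy⟩ := h1 D φ a b ha hb hab (δ ^ 3 / (C + 1)) (by positivity)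
      refine ⟨_, ⟨y, rfl⟩, ?_⟩
      rw [(hsa y).star_eq]
      exact hy)
    (by
      rintro _ ⟨y₀, rfl⟩ _ ⟨y₁, rfl⟩ ε hε
      obtain ⟨y, hy⟩ := h3 D G β hE a b y₀ y₁ ε hε
      exact ⟨_, ⟨y, rfl⟩, hy⟩)
  have hsay := hsa y
  rw [hsay.star_eq] at hy
  set h := a - star y * b * y with hh
  refine ⟨y, cut h δ, cut_nonneg h δ, ?_, fun σ => ?_⟩
  · have h3 := le_cut_add hsay δ
    have h4 : a = star y * b * y + h := by rw [hh]; abel
    rw [add_assoc]
    calc a = star y * b * y + h := h4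
      _ ≤ star y * b * y + (cut h δ + δ • (1 : D)) := by gcongr
  · obtain ⟨φ, σ₀, hInv, hQ, hdom⟩ := hDom σ
    have hyφ := hy φ hInv
    have h3 : σ.dim (one1 (cut h δ)) ≤ C * σ₀.dim (one1 (cut h δ)) := by
      have := hdom Unit (one1 (cut h δ)) (one1_nonneg (cut_nonneg h δ))
      rwa [Fintype.card_unit, Nat.cast_one, mul_one] at this
    have h4 : σ₀.dim (one1 (cut h δ)) ≤ (φ.φ (h * h)).re / δ ^ 2 := by
      unfold QTrace.dim
      refine ciSup_le fun n => ?_
      rw [← one1_cfc (fun t : ℝ => min 1 ((n : ℝ) * t)) (by fun_prop) _ (cut_sa h δ), hQ]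
      have h5 : cfc (fun t : ℝ => min 1 ((n : ℝ) * t)) (cut h δ) =
          cfc (fun t : ℝ => min 1 ((n : ℝ) * max (t - δ) 0)) h := by
        rw [cut, ← cfc_comp' (fun t : ℝ => min 1 ((n : ℝ) * t)) (fun t : ℝ => max (t - δ) 0) h]
      have h6 : cfc (fun t : ℝ => (δ ^ 2)⁻¹ * t ^ 2) h = (δ ^ 2)⁻¹ • (h * h) := by
        rw [cfc_const_mul ((δ ^ 2)⁻¹) (fun t : ℝ => t ^ 2) h, cfc_pow_id h 2, sq h]
      have h7 : cfc (fun t : ℝ => min 1 ((n : ℝ) * max (t - δ) 0)) h ≤ (δ ^ 2)⁻¹ • (h * h) := by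
        rw [← h6]
        refine cfc_mono fun t _ => ?_
        rcases le_total (t - δ) 0 with ht | ht
        · rw [max_eq_right ht, mul_zero, min_eq_right zero_le_one]
          positivity
        · refine (min_le_left _ _).trans ?_
          rw [inv_mul_eq_div, le_div_iff₀ (by positivity)]
          have : δ ≤ t := by linarith
          nlinarith
      have h8 := φ.nonneg _ (sub_nonneg.2 h7)
      rw [map_sub] at h8
      have h9 := (Complex.le_def.1 h8).1
      rw [Complex.zero_re, Complex.sub_re, LinearMap.map_smul_of_tower, Complex.real_smul,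
        Complex.re_ofReal_mul] at h9
      rw [h5, Fintype.sum_unique]
      change (φ.φ (cfc (fun t : ℝ => min 1 ((n : ℝ) * max (t - δ) 0)) h)).re ≤ _
      rw [div_eq_inv_mul]
      linarith
    have h5 : C * σ₀.dim (one1 (cut h δ)) ≤ C * ((φ.φ (h * h)).re / δ ^ 2) :=
      mul_le_mul_of_nonneg_left h4 hC
    have h6 : C * ((φ.φ (h * h)).re / δ ^ 2) < δ ∨ C * ((φ.φ (h * h)).re / δ ^ 2) = 0 := by
      rcases hC.eq_or_lt with h0 | h0
      · right
        rw [← h0, zero_mul]
      · left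
        calc C * ((φ.φ (h * h)).re / δ ^ 2) < C * (δ ^ 3 / (C + 1) / δ ^ 2) := by
              gcongr
          _ = δ * (C / (C + 1)) := by
              field_simp
          _ ≤ δ * 1 := by
              gcongr
              rw [div_le_one hC1]
              linarith
          _ = δ := mul_one δ
    rcases h6 with h6 | h6
    · linarith
    · linarith

end RC
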